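import Pool.Agent.Helper58.CC.Rows

/-!
# From tables of window masses to measures on the integers
-/

open Finset

namespace Pool.Agent.Helper58.CC

open Pool.Agent.Helper23.Hyper

/-- Window sums of a push-forward. -/
theorem sum_fib {ι : Type*} (I : Finset ι) (f : ι → ℤ) (a : ι → ℝ) (S : Finset ℤ)
    (hS : ∀ i ∈ I, f i ∈ S) (C : ℤ → Prop) [DecidablePred C] :
    ∑ w ∈ S.filter C, ∑ i ∈ I.filter (fun i => f i = w), a i =
      ∑ i ∈ I.filter (fun i => C (f i)), a i := by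
  classical
  rw [← Finset.sum_fiberwise_of_maps_to (s := I.filter (fun i => C (f i))) (t := S.filter C)
    (g := f)]
  · apply Finset.sum_congr rfl
    intro w hw
    rw [Finset.mem_filter] at hw
    congr 1
    ext i
    simp only [Finset.mem_filter]
    constructor
    · rintro ⟨h1, h2⟩
      exact ⟨⟨h1, by rw [h2]; exact hw.2⟩, h2⟩
    · rintro ⟨⟨h1, _⟩, h2⟩
      exact ⟨h1, h2⟩
  · intro i hi
    rw [Finset.mem_filter] at hi ⊢
    exact ⟨hS i hi.1, hi.2⟩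

theorem sum_tel (F : ℕ → ℝ) (A : ℝ) (a b : ℕ) (h : a ≤ b) :
    ∑ z ∈ Ico a b, (F (z + 1) - F z) / A = (F b - F a) / A := by
  rw [← Finset.sum_div, Finset.sum_Ico_eq_sub _ h, Finset.sum_range_sub, Finset.sum_range_sub]
  ring

/-- The measures given by two tables of cumulative masses. -/
theorem assemble (l mp mq : ℕ) (hmp : mp ≤ l) (hmq : 1 ≤ mq) (hmq' : mq ≤ l + 1) (n n' : ℕ)
    (F : ℕ → ℕ) (G : ℕ → ℕ → ℕ) (A B : ℕ) (hA : 0 < A) (hB : 0 < B)
    (hF : ∀ z < n, F z ≤ F (z + 1)) (hG : ∀ e < 2, ∀ z < n', G e z ≤ G e (z + 1))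
    (hFA : F n ≤ A) (hGB : G 0 n' + G 1 n' ≤ B)
    (hn : 4 * (2 ^ l - 1) / 2 ^ mp < n) (hn' : 4 * (2 ^ l - 1) / 2 ^ mq < n')
    (K : ℝ) (hK : 0 ≤ K)
    (h : ∀ y : ℕ, y ≤ 4 * (2 ^ l - 1) → (T l (y : ℤ) : ℝ) ^ 2 * (A * B) ≤
      K * ((F (y / 2 ^ mp + 1) : ℝ) - F (y / 2 ^ mp + 1 - 2 ^ (l - mp))) *
        ((G (y % 2) (y / 2 ^ mq + 1) : ℝ) - G (y % 2) (y / 2 ^ mq + 1 - 2 ^ (l + 1 - mq)))) :
    ∃ (S : Finset ℤ) (p q : ℤ → ℝ), (∀ w, 0 ≤ p w) ∧ (∀ w, 0 ≤ q w) ∧
      (∑ w ∈ S, p w) ≤ 1 ∧ (∑ w ∈ S, q w) ≤ 1 ∧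
      ∀ t : ℤ, (cnt (pows l) t : ℝ) ^ 2 ≤ K *
        (∑ w ∈ S.filter (fun w => w ≤ t ∧ t < w + 2 ^ l), p w) *
        (∑ w ∈ S.filter (fun w => w ≤ t ∧ t < w + 2 * 2 ^ l ∧ (2 : ℤ) ∣ (t - w)), q w) := by
  classical
  have hA' : (0 : ℝ) < A := by exact_mod_cast hA
  have hB' : (0 : ℝ) < B := by exact_mod_cast hB
  set s0 : ℤ := - (2 * (2 ^ l - 1)) with hs0
  set f : ℕ → ℤ := fun z => s0 + 2 ^ mp * z with hf
  set g : ℕ × ℕ → ℤ := fun z => s0 + 2 ^ mq * z.2 + z.1 with hg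
  set a : ℕ → ℝ := fun z => ((F (z + 1) : ℝ) - F z) / A with ha
  set b : ℕ × ℕ → ℝ := fun z => ((G z.1 (z.2 + 1) : ℝ) - G z.1 z.2) / B with hb
  have ha0 : ∀ z < n, 0 ≤ a z := by
    intro z hz
    have : (F z : ℝ) ≤ F (z + 1) := by exact_mod_cast hF z hz
    apply div_nonneg _ hA'.le
    linarith
  have hb0 : ∀ z : ℕ × ℕ, z.1 < 2 → z.2 < n' → 0 ≤ b z := by
    intro z hz1 hz2
    have : (G z.1 z.2 : ℝ) ≤ G z.1 (z.2 + 1) := by exact_mod_cast hG z.1 hz1 z.2 hz2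
    apply div_nonneg _ hB'.le
    linarith
  set I : Finset (ℕ × ℕ) := range 2 ×ˢ range n' with hI
  set S : Finset ℤ := (range n).image f ∪ I.image g with hS
  have hSf : ∀ z ∈ range n, f z ∈ S := fun z hz =>
    Finset.mem_union_left _ (Finset.mem_image_of_mem f hz)
  have hSg : ∀ z ∈ I, g z ∈ S := fun z hz =>
    Finset.mem_union_right _ (Finset.mem_image_of_mem g hz)
  have hp0 : ∀ w, 0 ≤ ∑ z ∈ (range n).filter (fun z => f z = w), a z := by
    intro w
    apply Finset.sum_nonneg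
    intro z hz
    exact ha0 z (Finset.mem_range.mp (Finset.mem_filter.mp hz).1)
  have hq0 : ∀ w, 0 ≤ ∑ z ∈ I.filter (fun z => g z = w), b z := by
    intro w
    apply Finset.sum_nonneg
    intro z hz
    have := Finset.mem_product.mp (Finset.mem_filter.mp hz).1
    exact hb0 z (Finset.mem_range.mp this.1) (Finset.mem_range.mp this.2)
  refine ⟨S, fun w => ∑ z ∈ (range n).filter (fun z => f z = w), a z,
    fun w => ∑ z ∈ I.filter (fun z => g z = w), b z, hp0, hq0, ?_, ?_, ?_⟩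
  · have e : ∑ w ∈ S, ∑ z ∈ (range n).filter (fun z => f z = w), a z = ∑ z ∈ range n, a z :=
      Finset.sum_fiberwise_of_maps_to hSf a
    show ∑ w ∈ S, ∑ z ∈ (range n).filter (fun z => f z = w), a z ≤ 1
    rw [e, Finset.range_eq_Ico, ha, sum_tel (fun z => (F z : ℝ)) A 0 n (by omega), div_le_one hA']
    have h1 : (F n : ℝ) ≤ A := by exact_mod_cast hFA
    have h2 : (0 : ℝ) ≤ F 0 := by positivity
    linarith
  · have e : ∑ w ∈ S, ∑ z ∈ I.filter (fun z => g z = w), b z = ∑ z ∈ I, b z :=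
      Finset.sum_fiberwise_of_maps_to hSg b
    show ∑ w ∈ S, ∑ z ∈ I.filter (fun z => g z = w), b z ≤ 1
    have e0 : ∀ k : ℕ, ∑ z ∈ range n', b (k, z) = ((G k n' : ℝ) - G k 0) / B := by
      intro k
      rw [Finset.range_eq_Ico]
      exact sum_tel (fun z => (G k z : ℝ)) B 0 n' (by omega)
    rw [e, hI, Finset.sum_product, Finset.sum_range_succ, Finset.sum_range_succ,
      Finset.sum_range_zero, zero_add, e0, e0, ← add_div, div_le_one hB']
    have h1 : (G 0 n' : ℝ) + G 1 n' ≤ B := by exact_mod_cast hGB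
    have h2 : (0 : ℝ) ≤ G 0 0 := by positivity
    have h3 : (0 : ℝ) ≤ G 1 0 := by positivity
    linarith
  · intro t
    show (cnt (pows l) t : ℝ) ^ 2 ≤ K *
        (∑ w ∈ S.filter (fun w => w ≤ t ∧ t < w + 2 ^ l),
          ∑ z ∈ (range n).filter (fun z => f z = w), a z) *
        (∑ w ∈ S.filter (fun w => w ≤ t ∧ t < w + 2 * 2 ^ l ∧ (2 : ℤ) ∣ (t - w)),
          ∑ z ∈ I.filter (fun z => g z = w), b z)
    have hcnt : cnt (pows l) t = T l (t - s0) := by
      unfold T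
      rw [hs0]
      congr 1
      ring
    have hV1 : 0 ≤ ∑ w ∈ S.filter (fun w => w ≤ t ∧ t < w + 2 ^ l),
          ∑ z ∈ (range n).filter (fun z => f z = w), a z :=
      Finset.sum_nonneg (fun w _ => hp0 w)
    have hV2 : 0 ≤ ∑ w ∈ S.filter (fun w => w ≤ t ∧ t < w + 2 * 2 ^ l ∧ (2 : ℤ) ∣ (t - w)),
          ∑ z ∈ I.filter (fun z => g z = w), b z :=
      Finset.sum_nonneg (fun w _ => hq0 w)
    by_cases hneg : t - s0 < 0
    · rw [hcnt, T_neg l _ hneg]
      have : ((0 : ℕ) : ℝ) ^ 2 = 0 := by norm_num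
      rw [this]
      positivity
    by_cases hbig : 4 * (2 ^ l - 1) < t - s0
    · rw [hcnt, T_big l _ hbig]
      have : ((0 : ℕ) : ℝ) ^ 2 = 0 := by norm_num
      rw [this]
      positivity
    push Not at hneg hbig
    obtain ⟨y, hy⟩ := Int.eq_ofNat_of_zero_le hneg
    have hyt : t = s0 + y := by omega
    have hy4 : y ≤ 4 * (2 ^ l - 1) := by
      have h1 : 1 ≤ 2 ^ l := Nat.one_le_two_pow
      zify [h1]
      rw [hy] at hbig
      exact hbig
    have hmain := h y hy4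
    rw [hcnt, hy]
    set u := y / 2 ^ mp with hu
    set v := y / 2 ^ mq with hv
    have hun : u < n := lt_of_le_of_lt (Nat.div_le_div_right hy4) hn
    have hvn : v < n' := lt_of_le_of_lt (Nat.div_le_div_right hy4) hn'
    have hmp0 : 0 < 2 ^ mp := Nat.two_pow_pos mp
    have hmq0 : 0 < 2 ^ mq := Nat.two_pow_pos mq
    have hu1 : 2 ^ mp * u ≤ y := Nat.mul_div_le y _
    have hu2 : y < 2 ^ mp * (u + 1) := by
      have := Nat.lt_mul_div_succ y hmp0
      simpa using this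
    have hv1 : 2 ^ mq * v ≤ y := Nat.mul_div_le y _
    have hv2 : y < 2 ^ mq * (v + 1) := by
      have := Nat.lt_mul_div_succ y hmq0
      simpa using this
    have hW1 : 2 ^ mp * 2 ^ (l - mp) = 2 ^ l := by
      rw [← pow_add]; congr 1; omega
    have hW2 : 2 ^ mq * 2 ^ (l + 1 - mq) = 2 * 2 ^ l := by
      rw [← pow_add, mul_comm 2 (2 ^ l), ← pow_succ]; congr 1; omega
    have k1 : ((F (u + 1) : ℝ) - F (u + 1 - 2 ^ (l - mp))) / A ≤
        ∑ w ∈ S.filter (fun w => w ≤ t ∧ t < w + 2 ^ l),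
          ∑ z ∈ (range n).filter (fun z => f z = w), a z := by
      rw [sum_fib (range n) f a S hSf]
      rw [← sum_tel (fun z => (F z : ℝ)) A (u + 1 - 2 ^ (l - mp)) (u + 1) (Nat.sub_le _ _)]
      apply Finset.sum_le_sum_of_subset_of_nonneg
      · intro z hz
        rw [Finset.mem_Ico] at hz
        rw [Finset.mem_filter, Finset.mem_range]
        refine ⟨by omega, ?_, ?_⟩
        · rw [hf, hyt]
          have : 2 ^ mp * z ≤ y := le_trans (Nat.mul_le_mul_left _ (by omega)) hu1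
          have : (2 : ℤ) ^ mp * z ≤ y := by exact_mod_cast this
          simpa using this
        · rw [hf, hyt]
          have : y < 2 ^ mp * z + 2 ^ l := by
            rw [← hW1, ← mul_add]
            exact lt_of_lt_of_le hu2 (Nat.mul_le_mul_left _ (by omega))
          have : (y : ℤ) < 2 ^ mp * z + 2 ^ l := by exact_mod_cast this
          show s0 + (y : ℤ) < s0 + 2 ^ mp * z + 2 ^ l
          linarith
      · intro z hz _
        exact ha0 z (Finset.mem_range.mp (Finset.mem_filter.mp hz).1)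
    have k2 : ((G (y % 2) (v + 1) : ℝ) - G (y % 2) (v + 1 - 2 ^ (l + 1 - mq))) / B ≤
        ∑ w ∈ S.filter (fun w => w ≤ t ∧ t < w + 2 * 2 ^ l ∧ (2 : ℤ) ∣ (t - w)),
          ∑ z ∈ I.filter (fun z => g z = w), b z := by
      rw [sum_fib I g b S hSg]
      rw [← sum_tel (fun z => (G (y % 2) z : ℝ)) B (v + 1 - 2 ^ (l + 1 - mq)) (v + 1) (Nat.sub_le _ _)]
      have e : ∑ z ∈ Ico (v + 1 - 2 ^ (l + 1 - mq)) (v + 1),
          ((G (y % 2) (z + 1) : ℝ) - G (y % 2) z) / B =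
          ∑ z ∈ (Ico (v + 1 - 2 ^ (l + 1 - mq)) (v + 1)).image (fun z => (y % 2, z)), b z := by
        rw [Finset.sum_image]
        intro z _ z' _ hzz
        simpa using hzz
      show ∑ z ∈ Ico (v + 1 - 2 ^ (l + 1 - mq)) (v + 1),
          ((G (y % 2) (z + 1) : ℝ) - G (y % 2) z) / B ≤ _
      rw [e]
      have hmq2 : (2 : ℤ) ∣ 2 ^ mq := dvd_pow_self _ (by omega)
      have hmq2' : 2 ∣ 2 ^ mq := dvd_pow_self _ (by omega)
      apply Finset.sum_le_sum_of_subset_of_nonneg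
      · intro zz hzz
        rw [Finset.mem_image] at hzz
        obtain ⟨z, hz, rfl⟩ := hzz
        rw [Finset.mem_Ico] at hz
        rw [Finset.mem_filter, hI, Finset.mem_product, Finset.mem_range, Finset.mem_range]
        obtain ⟨c, hc⟩ := hmq2'
        refine ⟨⟨Nat.mod_lt _ (by norm_num), by show z < n'; omega⟩, ?_, ?_, ?_⟩
        · rw [hg, hyt]
          have h1 : 2 ^ mq * z ≤ 2 ^ mq * v := Nat.mul_le_mul_left _ (by omega)
          have h2 : 2 ^ mq * z + y % 2 ≤ y := by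
            rw [hc, mul_assoc] at hv1 ⊢
            rw [hc, mul_assoc, mul_assoc] at h1
            omega
          have : (2 : ℤ) ^ mq * z + ((y % 2 : ℕ) : ℤ) ≤ y := by exact_mod_cast h2
          show s0 + 2 ^ mq * (z : ℤ) + ((y % 2 : ℕ) : ℤ) ≤ s0 + y
          linarith
        · rw [hg, hyt]
          have : y < 2 ^ mq * z + 2 * 2 ^ l := by
            rw [← hW2, ← mul_add]
            exact lt_of_lt_of_le hv2 (Nat.mul_le_mul_left _ (by omega))
          have : (y : ℤ) < 2 ^ mq * z + 2 * 2 ^ l := by exact_mod_cast this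
          have h3 : (0 : ℤ) ≤ ((y % 2 : ℕ) : ℤ) := by positivity
          show s0 + (y : ℤ) < s0 + 2 ^ mq * (z : ℤ) + ((y % 2 : ℕ) : ℤ) + 2 * 2 ^ l
          linarith
        · rw [hg, hyt]
          show (2 : ℤ) ∣ s0 + (y : ℤ) - (s0 + 2 ^ mq * (z : ℤ) + ((y % 2 : ℕ) : ℤ))
          obtain ⟨d, hd⟩ := hmq2
          rw [hd, show s0 + (y : ℤ) - (s0 + 2 * d * (z : ℤ) + ((y % 2 : ℕ) : ℤ)) =
            ((y : ℤ) - ((y % 2 : ℕ) : ℤ)) - 2 * (d * z) by ring]
          apply dvd_sub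
          · have : (2 : ℤ) ∣ (y : ℤ) - ((y % 2 : ℕ) : ℤ) := by omega
            exact this
          · exact dvd_mul_right 2 _
      · intro z hz _
        have := Finset.mem_product.mp (Finset.mem_filter.mp hz).1
        exact hb0 z (Finset.mem_range.mp this.1) (Finset.mem_range.mp this.2)
    have n1 : 0 ≤ ((F (u + 1) : ℝ) - F (u + 1 - 2 ^ (l - mp))) / A := by
      rw [← sum_tel (fun z => (F z : ℝ)) A (u + 1 - 2 ^ (l - mp)) (u + 1) (Nat.sub_le _ _)]
      apply Finset.sum_nonneg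
      intro z hz
      rw [Finset.mem_Ico] at hz
      exact ha0 z (by omega)
    have n2 : 0 ≤ ((G (y % 2) (v + 1) : ℝ) - G (y % 2) (v + 1 - 2 ^ (l + 1 - mq))) / B := by
      rw [← sum_tel (fun z => (G (y % 2) z : ℝ)) B (v + 1 - 2 ^ (l + 1 - mq)) (v + 1) (Nat.sub_le _ _)]
      apply Finset.sum_nonneg
      intro z hz
      rw [Finset.mem_Ico] at hz
      exact hb0 (y % 2, z) (Nat.mod_lt _ (by norm_num)) (by show z < n'; omega)
    calc (T l (y : ℤ) : ℝ) ^ 2 ≤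
        K * (((F (u + 1) : ℝ) - F (u + 1 - 2 ^ (l - mp))) / A) *
          (((G (y % 2) (v + 1) : ℝ) - G (y % 2) (v + 1 - 2 ^ (l + 1 - mq))) / B) := by
          rw [show K * (((F (u + 1) : ℝ) - F (u + 1 - 2 ^ (l - mp))) / A) *
            (((G (y % 2) (v + 1) : ℝ) - G (y % 2) (v + 1 - 2 ^ (l + 1 - mq))) / B) =
            (K * ((F (u + 1) : ℝ) - F (u + 1 - 2 ^ (l - mp))) *
            ((G (y % 2) (v + 1) : ℝ) - G (y % 2) (v + 1 - 2 ^ (l + 1 - mq)))) / (A * B) by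
              field_simp, le_div_iff₀ (by positivity)]
          exact hmain
      _ ≤ _ := by
          apply mul_le_mul (mul_le_mul_of_nonneg_left k1 hK) k2 n2
          exact mul_nonneg hK hV1

end Pool.Agent.Helper58.CC
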