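import Pool.Agent.Helper58.CC.Check
import Pool.Agent.Helper58.CC.Measure
import Pool.Agent.Helper69.CH.Growth2

/-!
# The two-scale certificate for chains of every length

For the counts `N(t) = cnt (pows l) t` of five-digit representations by `1, 2, …, 2^(l-1)` there are
measures `p`, `q` of mass at most one on the integers such that
`N(t)^2 ≤ 7 β^(2(l-1)) p{w : w ≤ t < w + 2^l} q{w : w ≤ t < w + 2^(l+1), t - w even}`.
-/

open Finset

namespace Pool.Agent.Helper58.CC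

open Pool.Agent.Helper23.Hyper Pool.Agent.Helper69.CH

/-! ### Reading the checks -/

theorem mono_step : ∀ (L : List ℕ), mono L = true → ∀ z, z + 1 < L.length →
    nth L z ≤ nth L (z + 1) := by
  intro L
  induction L with
  | nil => intro _ z hz; simp at hz
  | cons x L ih =>
    intro h z hz
    simp only [mono, Bool.and_eq_true] at h
    rcases L with _ | ⟨y, L⟩
    · simp at hz
    · rcases z with _ | z
      · exact Nat.le_of_ble_eq_true h.1
      · have := ih h.2 z (by simpa using hz)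
        simpa [nth] using this

theorem mono_le (L : List ℕ) (h : mono L = true) (i : ℕ) : ∀ j, i ≤ j → j < L.length →
    nth L i ≤ nth L j := by
  intro j hij
  induction j, hij using Nat.le_induction with
  | base => intro _; exact le_rfl
  | succ j hij ih =>
    intro hj
    exact (ih (by omega)).trans (mono_step L h j hj)

theorem wd_cast (L : List ℕ) (h : mono L = true) (u W : ℕ) (hu : u + 1 < L.length) :
    ((wd L u W : ℕ) : ℝ) = (nth L (u + 1) : ℝ) - nth L (u + 1 - W) := by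
  unfold wd
  rw [Nat.cast_sub]
  exact mono_le L h _ _ (Nat.sub_le _ _) hu

theorem chk_spec (R F G H : List ℕ) (K AB dp Wp dq Wq : ℕ) : ∀ N : ℕ,
    chk R F G H K AB dp Wp dq Wq N = true → ∀ y < N, nth R y ^ 2 * AB ≤
      K * wd F (y / dp) Wp * wd (bif y % 2 == 0 then G else H) (y / dq) Wq := by
  intro N
  induction N with
  | zero => intro _ y hy; omega
  | succ N ih =>
    intro h y hy
    simp only [chk, Bool.and_eq_true] at h
    rcases Nat.lt_succ_iff_lt_or_eq.mp hy with h1 | h1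
    · exact ih h.2 y h1
    · subst h1
      exact Nat.le_of_ble_eq_true h.1

/-- The certificate at length `l` with constant `K`. -/
def CertAt (l : ℕ) (K : ℝ) : Prop :=
  ∃ (S : Finset ℤ) (p q : ℤ → ℝ), (∀ w, 0 ≤ p w) ∧ (∀ w, 0 ≤ q w) ∧
      (∑ w ∈ S, p w) ≤ 1 ∧ (∑ w ∈ S, q w) ≤ 1 ∧
      ∀ t : ℤ, (cnt (pows l) t : ℝ) ^ 2 ≤ K *
        (∑ w ∈ S.filter (fun w => w ≤ t ∧ t < w + 2 ^ l), p w) *
        (∑ w ∈ S.filter (fun w => w ≤ t ∧ t < w + 2 * 2 ^ l ∧ (2 : ℤ) ∣ (t - w)), q w)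

theorem CertAt.mono {l : ℕ} {K K' : ℝ} (h : CertAt l K) (hK : K ≤ K') : CertAt l K' := by
  obtain ⟨S, p, q, h1, h2, h3, h4, h5⟩ := h
  refine ⟨S, p, q, h1, h2, h3, h4, fun t => (h5 t).trans ?_⟩
  have e1 : 0 ≤ ∑ w ∈ S.filter (fun w => w ≤ t ∧ t < w + 2 ^ l), p w :=
    Finset.sum_nonneg (fun w _ => h1 w)
  have e2 : 0 ≤ ∑ w ∈ S.filter (fun w => w ≤ t ∧ t < w + 2 * 2 ^ l ∧ (2 : ℤ) ∣ (t - w)), q w :=
    Finset.sum_nonneg (fun w _ => h2 w)
  gcongr

/-- Selecting the table for the parity class. -/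
def sel (G H : List ℕ) (e : ℕ) : List ℕ := bif e == 0 then G else H

theorem of_full (l mp mq N n n' A B K dp Wp dq Wq : ℕ) (R F G H : List ℕ) (hR : row l = R)
    (hdp : dp = 2 ^ mp) (hWp : Wp = 2 ^ (l - mp)) (hdq : dq = 2 ^ mq)
    (hWq : Wq = 2 ^ (l + 1 - mq))
    (h : full R F G H K A B dp Wp dq Wq N n n' = true)
    (hmp : mp ≤ l) (hmq : 1 ≤ mq) (hmq' : mq ≤ l + 1) (hN : 4 * (2 ^ l - 1) < N)
    (hn : 4 * (2 ^ l - 1) / 2 ^ mp < n) (hn' : 4 * (2 ^ l - 1) / 2 ^ mq < n')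
    (hA : 0 < A) (hB : 0 < B) : CertAt l K := by
  simp only [full, Bool.and_eq_true, beq_iff_eq] at h
  obtain ⟨⟨⟨⟨⟨⟨⟨⟨mF, mG⟩, mH⟩, lF⟩, lG⟩, lH⟩, cA⟩, cB⟩, hc⟩ := h
  have hc' := chk_spec R F G H K (A * B) dp Wp dq Wq N hc
  have msel : ∀ e, mono (sel G H e) = true := by
    intro e
    unfold sel
    cases (e == 0) <;> simp [mG, mH]
  have lsel : ∀ e, (sel G H e).length = n' + 1 := by
    intro e
    unfold sel
    cases (e == 0) <;> simp [lG, lH]
  refine assemble l mp mq hmp hmq hmq' n n' (nth F) (fun e => nth (sel G H e)) A B hA hB ?_ ?_ ?_ ?_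
    hn hn' K (by positivity) ?_
  · intro z hz
    exact mono_step F mF z (by omega)
  · intro e _ z hz
    exact mono_step _ (msel e) z (by rw [lsel]; omega)
  · exact Nat.le_of_ble_eq_true cA
  · exact Nat.le_of_ble_eq_true cB
  · intro y hy
    have h1 := hc' y (by omega)
    have hu : y / 2 ^ mp < n := lt_of_le_of_lt (Nat.div_le_div_right hy) hn
    have hv : y / 2 ^ mq < n' := lt_of_le_of_lt (Nat.div_le_div_right hy) hn'
    have e1 := wd_cast F mF (y / 2 ^ mp) (2 ^ (l - mp)) (by omega)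
    have e2 := wd_cast (sel G H (y % 2)) (msel _) (y / 2 ^ mq) (2 ^ (l + 1 - mq))
      (by rw [lsel]; omega)
    rw [T_eq_nth, hR, ← e1, ← e2]
    rw [hdp, hWp, hdq, hWq] at h1
    have h2 : ((nth R y ^ 2 * (A * B) : ℕ) : ℝ) ≤
        ((K * wd F (y / 2 ^ mp) (2 ^ (l - mp)) *
          wd (bif y % 2 == 0 then G else H) (y / 2 ^ mq) (2 ^ (l + 1 - mq)) : ℕ) : ℝ) := by
      exact_mod_cast h1
    push_cast at h2
    exact h2

/-! ### Long chains -/

theorem rj_eq : ∀ J ≤ 6, row J = rj J := by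
  intro J hJ
  interval_cases J
  · exact row0
  · exact row1
  · exact row2
  · exact row3
  · exact row4
  · exact row5
  · exact row6

theorem T_nk (J μ k : ℕ) : T J ((μ : ℤ) - k) = nk (row J) μ k := by
  unfold nk
  by_cases h : k ≤ μ
  · have : Nat.ble k μ = true := Nat.ble_eq.mpr h
    rw [this, cond_true, ← T_eq_nth]
    congr 1
    push_cast [Nat.cast_sub h]
    ring
  · have : Nat.ble k μ = false := by
      rw [Bool.eq_false_iff]
      intro hc
      exact h (Nat.le_of_ble_eq_true hc)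
    rw [this, cond_false]
    exact T_neg J _ (by omega)

/-- The four lower block values. -/
def uk (m ρ k : ℕ) : ℕ := T m ((ρ : ℤ) + k * 2 ^ m)

theorem T_split_nk (m ρ : ℕ) (h1 : ρ < 2 ^ m) (J μ : ℕ) :
    T (J + m) (2 ^ m * (μ : ℤ) + ρ) = nk (row J) μ 0 * uk m ρ 0 + nk (row J) μ 1 * uk m ρ 1 +
      nk (row J) μ 2 * uk m ρ 2 + nk (row J) μ 3 * uk m ρ 3 := by
  have h := T_split m ρ (by positivity) (by exact_mod_cast h1) J μ
  have e0 := T_nk J μ 0
  have e1 := T_nk J μ 1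
  have e2 := T_nk J μ 2
  have e3 := T_nk J μ 3
  push_cast at e0 e1 e2 e3
  rw [sub_zero] at e0
  rw [h, e0, e1, e2, e3]
  unfold uk
  push_cast
  rw [zero_mul, add_zero, one_mul]

/-- The weighted sum of the values of the blocks in the combination. -/
def tot (m ρ : ℕ) : List (ℕ × ℕ × ℕ) → ℕ
  | [] => 0
  | (J, μ, c) :: L => c * T (J + m) (2 ^ m * (μ : ℤ) + ρ) + tot m ρ L

theorem tot_eq (m ρ : ℕ) (h1 : ρ < 2 ^ m) : ∀ L : List (ℕ × ℕ × ℕ), lev L = true →
    tot m ρ L = comb 0 L * uk m ρ 0 + comb 1 L * uk m ρ 1 + comb 2 L * uk m ρ 2 +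
      comb 3 L * uk m ρ 3 := by
  intro L
  induction L with
  | nil => intro _; simp [tot, comb]
  | cons x L ih =>
    obtain ⟨J, μ, c⟩ := x
    intro h
    simp only [lev, Bool.and_eq_true] at h
    have hJ := Nat.le_of_ble_eq_true h.1
    simp only [tot, comb]
    rw [ih h.2, T_split_nk m ρ h1 J μ, rj_eq J hJ]
    ring

theorem tot_le (m ρ : ℕ) (cc : ℕ → ℕ) (X : ℝ)
    (hX : ∀ J μ : ℕ, J ≤ 6 → (T (J + m) (2 ^ m * (μ : ℤ) + ρ) : ℝ) ≤ cc J * X) :
    ∀ L : List (ℕ × ℕ × ℕ), lev L = true → (tot m ρ L : ℝ) ≤ combc cc L * X := by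
  intro L
  induction L with
  | nil => intro _; simp [tot, combc]
  | cons x L ih =>
    obtain ⟨J, μ, c⟩ := x
    intro h
    simp only [lev, Bool.and_eq_true] at h
    have hJ := Nat.le_of_ble_eq_true h.1
    simp only [tot, combc]
    push_cast
    have h1 := ih h.2
    have h2 := hX J μ hJ
    have h3 : (0 : ℝ) ≤ c := by positivity
    have h4 := mul_le_mul_of_nonneg_left h2 h3
    linarith

/-- The bound for a block. -/
theorem block_le (m ρ q : ℕ) (h1 : ρ < 2 ^ m) (c : ℕ × List (ℕ × ℕ × ℕ))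
    (hl : lev c.2 = true)
    (g0 : c.1 * nk r6 q 0 ≤ comb 0 c.2) (g1 : c.1 * nk r6 q 1 ≤ comb 1 c.2)
    (g2 : c.1 * nk r6 q 2 ≤ comb 2 c.2) (g3 : c.1 * nk r6 q 3 ≤ comb 3 c.2) (cc : ℕ → ℕ) (X : ℝ)
    (hX : ∀ J μ : ℕ, J ≤ 6 → (T (J + m) (2 ^ m * (μ : ℤ) + ρ) : ℝ) ≤ cc J * X) :
    (c.1 : ℝ) * T (6 + m) (2 ^ m * (q : ℤ) + ρ) ≤ combc cc c.2 * X := by
  refine le_trans ?_ (tot_le m ρ cc X hX c.2 hl)
  rw [tot_eq m ρ h1 c.2 hl, T_split_nk m ρ h1 6 q, row6]
  have : c.1 * (nk r6 q 0 * uk m ρ 0 + nk r6 q 1 * uk m ρ 1 + nk r6 q 2 * uk m ρ 2 +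
      nk r6 q 3 * uk m ρ 3) ≤ comb 0 c.2 * uk m ρ 0 + comb 1 c.2 * uk m ρ 1 +
      comb 2 c.2 * uk m ρ 2 + comb 3 c.2 * uk m ρ 3 := by
    have a0 := Nat.mul_le_mul_right (uk m ρ 0) g0
    have a1 := Nat.mul_le_mul_right (uk m ρ 1) g1
    have a2 := Nat.mul_le_mul_right (uk m ρ 2) g2
    have a3 := Nat.mul_le_mul_right (uk m ρ 3) g3
    calc _ = c.1 * nk r6 q 0 * uk m ρ 0 + c.1 * nk r6 q 1 * uk m ρ 1 +
        c.1 * nk r6 q 2 * uk m ρ 2 + c.1 * nk r6 q 3 * uk m ρ 3 := by ring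
      _ ≤ _ := by omega
  exact_mod_cast this

theorem chkAll_spec : ∀ (L : List (ℕ × List (ℕ × ℕ × ℕ))) (q : ℕ), chkAll q L = true →
    ∀ i < L.length, ∃ c, chkRow (q + i) c = true := by
  intro L
  induction L with
  | nil => intro q _ i hi; simp at hi
  | cons c L ih =>
    intro q h i hi
    simp only [chkAll, Bool.and_eq_true] at h
    rcases i with _ | i
    · exact ⟨c, h.1⟩
    · obtain ⟨c', hc'⟩ := ih (q + 1) h.2 i (by simpa using hi)
      exact ⟨c', by rw [show q + (i + 1) = q + 1 + i by ring]; exact hc'⟩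

theorem blk (q : ℕ) (hq : q < 256) : ∃ c, chkRow q c = true := by
  rcases Nat.lt_or_ge q 64 with h | h
  · have := chkAll_spec lpt0 0 blk0 q (by rw [len0]; exact h)
    simpa using this
  rcases Nat.lt_or_ge q 128 with h' | h'
  · have := chkAll_spec lpt1 64 blk1 (q - 64) (by rw [len1]; omega)
    rwa [show 64 + (q - 64) = q by omega] at this
  rcases Nat.lt_or_ge q 192 with h'' | h''
  · have := chkAll_spec lpt2 128 blk2 (q - 128) (by rw [len2]; omega)
    rwa [show 128 + (q - 128) = q by omega] at this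
  · have := chkAll_spec lpt3 192 blk3 (q - 192) (by rw [len3]; omega)
    rwa [show 192 + (q - 192) = q by omega] at this

section

variable {β : ℝ} (hβ : IsGreatest {z : ℝ | z ^ 8 - 8 * z ^ 6 + 10 * z ^ 4 + 1 = 0} β)

include hβ

theorem shift_le (m J : ℕ) (hJ : J ≤ 6) (κ c X : ℝ) (hX : X ≤ κ * β ^ (J + m))
    (hκ : κ ≤ c / 100000000 * (25386 / 10000 : ℝ) ^ (6 - J)) (hc : 0 ≤ c) :
    X ≤ c * (β ^ (6 + m) / 100000000) := by
  have h1 := root_ge'' hβ
  have h2 : 0 < β ^ (J + m) := by positivity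
  have h3 : β ^ (6 + m) = β ^ (6 - J) * β ^ (J + m) := by
    rw [← pow_add]; congr 1; omega
  have h4 : (25386 / 10000 : ℝ) ^ (6 - J) ≤ β ^ (6 - J) := by gcongr
  calc X ≤ κ * β ^ (J + m) := hX
    _ ≤ (c / 100000000 * (25386 / 10000 : ℝ) ^ (6 - J)) * β ^ (J + m) := by gcongr
    _ ≤ (c / 100000000 * β ^ (6 - J)) * β ^ (J + m) := by gcongr
    _ = c * (β ^ (6 + m) / 100000000) := by rw [h3]; ring

theorem even_le (m : ℕ) (hm : 2 ≤ m) (J : ℕ) (hJ : J ≤ 6) (z : ℤ) :
    (T (J + m) z : ℝ) ≤ ce J * (β ^ (6 + m) / 100000000) := by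
  have hT : (T (J + m) z : ℝ) ≤ Q (J + m) := by exact_mod_cast T_le_Q (J + m) (by omega) z
  interval_cases J
  · exact shift_le hβ m 0 (by norm_num) (4891 / 10000) _ _ (hT.trans (Q_le_two hβ _ (by omega)))
      (by simp only [ce]; norm_num) (by simp only [ce]; norm_num)
  · exact shift_le hβ m 1 (by norm_num) (4891 / 10000) _ _ (hT.trans (Q_le_two hβ _ (by omega)))
      (by simp only [ce]; norm_num) (by simp only [ce]; norm_num)
  · exact shift_le hβ m 2 (by norm_num) (4838 / 10000) _ _ (hT.trans (Q_le_four hβ _ (by omega)))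
      (by simp only [ce]; norm_num) (by simp only [ce]; norm_num)
  · exact shift_le hβ m 3 (by norm_num) (4838 / 10000) _ _ (hT.trans (Q_le_four hβ _ (by omega)))
      (by simp only [ce]; norm_num) (by simp only [ce]; norm_num)
  · exact shift_le hβ m 4 (by norm_num) (483 / 1000) _ _ (hT.trans (Q_le_six hβ _ (by omega)))
      (by simp only [ce]; norm_num) (by simp only [ce]; norm_num)
  · exact shift_le hβ m 5 (by norm_num) (483 / 1000) _ _ (hT.trans (Q_le_six hβ _ (by omega)))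
      (by simp only [ce]; norm_num) (by simp only [ce]; norm_num)
  · exact shift_le hβ m 6 (by norm_num) (483 / 1000) _ _ (hT.trans (Q_le_six hβ _ (by omega)))
      (by simp only [ce]; norm_num) (by simp only [ce]; norm_num)

theorem odd_le (m : ℕ) (hm : 2 ≤ m) (J : ℕ) (hJ : J ≤ 6) (z : ℤ) (hz : z % 2 = 1) :
    (T (J + m) z : ℝ) ≤ co J * (β ^ (6 + m) / 100000000) := by
  have hT : (T (J + m) z : ℝ) ≤ P (J + m) := by exact_mod_cast T_le_P (J + m) (by omega) z hz
  have hP := hT.trans (P_le hβ (J + m) (by omega))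
  interval_cases J
  · exact shift_le hβ m 0 (by norm_num) _ _ _ hP (by simp only [co]; norm_num)
      (by simp only [co]; norm_num)
  · exact shift_le hβ m 1 (by norm_num) _ _ _ hP (by simp only [co]; norm_num)
      (by simp only [co]; norm_num)
  · exact shift_le hβ m 2 (by norm_num) _ _ _ hP (by simp only [co]; norm_num)
      (by simp only [co]; norm_num)
  · exact shift_le hβ m 3 (by norm_num) _ _ _ hP (by simp only [co]; norm_num)
      (by simp only [co]; norm_num)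
  · exact shift_le hβ m 4 (by norm_num) _ _ _ hP (by simp only [co]; norm_num)
      (by simp only [co]; norm_num)
  · exact shift_le hβ m 5 (by norm_num) _ _ _ hP (by simp only [co]; norm_num)
      (by simp only [co]; norm_num)
  · exact shift_le hβ m 6 (by norm_num) _ _ _ hP (by simp only [co]; norm_num)
      (by simp only [co]; norm_num)

/-- The final arithmetic for a long chain. -/
theorem final_arith (l : ℕ) (hl : 1 ≤ l) (t : ℝ) (ht : 0 ≤ t) (D E V1 V2 : ℕ) (hD : 1 ≤ D)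
    (h1 : (D : ℝ) * t ≤ E * (β ^ l / 100000000))
    (h2 : E ^ 2 * (100000000000000 * 100000) ≤
      108618 * (10000000000000000 * D ^ 2) * V1 * V2) :
    t ^ 2 * ((10000000 : ℕ) * (10000000 : ℕ)) ≤ 7 * β ^ (2 * (l - 1)) * V1 * V2 := by
  have hb1 := root_ge'' hβ
  have hb2 := root_le'' hβ
  have h2' : (E : ℝ) ^ 2 * (100000000000000 * 100000) ≤
      108618 * (10000000000000000 * (D : ℝ) ^ 2) * V1 * V2 := by exact_mod_cast h2
  have hD' : (1 : ℝ) ≤ D := by exact_mod_cast hD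
  have h3 : ((D : ℝ) * t) ^ 2 ≤ (E * (β ^ l / 100000000)) ^ 2 := by gcongr
  have hx : β ^ (2 * l) = β ^ 2 * β ^ (2 * (l - 1)) := by
    rw [← pow_add]; congr 1; omega
  set Y := β ^ (2 * (l - 1)) with hY
  have hY0 : 0 < Y := by positivity
  have h4 : (108618 / 100000 : ℝ) * β ^ 2 ≤ 7 := by nlinarith
  have h5 : (E * (β ^ l / 100000000)) ^ 2 = (E : ℝ) ^ 2 * (β ^ 2 * Y) / 10000000000000000 := by
    rw [mul_pow, div_pow, ← pow_mul, mul_comm l 2, hx]
    ring
  rw [h5] at h3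
  have hV : (0 : ℝ) ≤ (V1 : ℝ) * V2 := by positivity
  have h6 : (D : ℝ) ^ 2 * (t ^ 2 * ((10000000 : ℕ) * (10000000 : ℕ))) ≤
      (D : ℝ) ^ 2 * (7 * Y * V1 * V2) := by
    calc (D : ℝ) ^ 2 * (t ^ 2 * ((10000000 : ℕ) * (10000000 : ℕ))) =
        ((D : ℝ) * t) ^ 2 * 100000000000000 := by push_cast; ring
      _ ≤ ((E : ℝ) ^ 2 * (β ^ 2 * Y) / 10000000000000000) * 100000000000000 := by gcongr
      _ = ((E : ℝ) ^ 2 * (100000000000000 * 100000)) * (β ^ 2 * Y) /
          (10000000000000000 * 100000) := by ring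
      _ ≤ (108618 * (10000000000000000 * (D : ℝ) ^ 2) * V1 * V2) * (β ^ 2 * Y) /
          (10000000000000000 * 100000) := by gcongr
      _ = (D : ℝ) ^ 2 * ((108618 / 100000 * β ^ 2) * Y * (V1 * V2)) := by ring
      _ ≤ (D : ℝ) ^ 2 * (7 * Y * (V1 * V2)) := by gcongr
      _ = (D : ℝ) ^ 2 * (7 * Y * V1 * V2) := by ring
  exact le_of_mul_le_mul_left h6 (by positivity)

theorem cert_long (m : ℕ) (hm : 2 ≤ m) : CertAt (6 + m) (7 * β ^ (2 * (6 + m - 1))) := by
  have hb1 := root_ge'' hβ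
  have hfull := full7
  simp only [full, Bool.and_eq_true, beq_iff_eq] at hfull
  obtain ⟨⟨⟨⟨⟨⟨⟨⟨mF, mG⟩, mH⟩, lF⟩, lG⟩, lH⟩, cA⟩, cB⟩, _⟩ := hfull
  have msel : ∀ e, mono (sel gB hB e) = true := by
    intro e
    unfold sel
    cases (e == 0) <;> simp [mG, mH]
  have lsel : ∀ e, (sel gB hB e).length = 256 + 1 := by
    intro e
    unfold sel
    cases (e == 0) <;> simp [lG, lH]
  have hlt : ∀ y : ℕ, y ≤ 4 * (2 ^ (6 + m) - 1) → y / 2 ^ m < 256 := by
    intro y hy
    rw [Nat.div_lt_iff_lt_mul (Nat.two_pow_pos m)]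
    have : 2 ^ (6 + m) = 64 * 2 ^ m := by rw [pow_add]; norm_num
    have h0 : 0 < 2 ^ m := Nat.two_pow_pos m
    omega
  refine assemble (6 + m) m m (by omega) (by omega) (by omega) 256 256 (nth fB)
    (fun e => nth (sel gB hB e)) 10000000 10000000 (by norm_num) (by norm_num) ?_ ?_ ?_ ?_
    (hlt _ le_rfl) (hlt _ le_rfl) _ (by positivity) ?_
  · intro z hz
    exact mono_step fB mF z (by omega)
  · intro e _ z hz
    exact mono_step _ (msel e) z (by rw [lsel]; omega)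
  · exact Nat.le_of_ble_eq_true cA
  · exact Nat.le_of_ble_eq_true cB
  · intro y hy
    have hq := hlt y hy
    set q := y / 2 ^ m with hqd
    set ρ := y % 2 ^ m with hρd
    have hρ : ρ < 2 ^ m := Nat.mod_lt _ (Nat.two_pow_pos m)
    have hy' : (y : ℤ) = 2 ^ m * (q : ℤ) + ρ := by
      have := Nat.div_add_mod y (2 ^ m)
      exact_mod_cast this.symm
    obtain ⟨c, hc⟩ := blk q hq
    simp only [chkRow, Bool.and_eq_true] at hc
    obtain ⟨⟨⟨⟨⟨⟨⟨cD, cl⟩, g0⟩, g1⟩, g2⟩, g3⟩, ke⟩, ko⟩ := hc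
    have cD' := Nat.le_of_ble_eq_true cD
    have e1 := wd_cast fB mF q (2 ^ (6 + m - m)) (by omega)
    have e2 := wd_cast (sel gB hB (y % 2)) (msel _) q (2 ^ (6 + m + 1 - m)) (by rw [lsel]; omega)
    show (T (6 + m) (y : ℤ) : ℝ) ^ 2 * (((10000000 : ℕ) : ℝ) * ((10000000 : ℕ) : ℝ)) ≤
      7 * β ^ (2 * (6 + m - 1)) * ((nth fB (q + 1) : ℝ) - nth fB (q + 1 - 2 ^ (6 + m - m))) *
      ((nth (sel gB hB (y % 2)) (q + 1) : ℝ) -
        nth (sel gB hB (y % 2)) (q + 1 - 2 ^ (6 + m + 1 - m)))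
    rw [← e1, ← e2, hy', show 6 + m - m = 6 by omega, show 6 + m + 1 - m = 7 by omega]
    have hpar : (2 : ℤ) ∣ 2 ^ m := dvd_pow_self _ (by omega)
    obtain ⟨d, hd⟩ := hpar
    rcases Nat.mod_two_eq_zero_or_one y with hy2 | hy2
    · rw [hy2]
      refine final_arith hβ (6 + m) (by omega) _ (by positivity) c.1 (combc ce c.2) _ _ cD'
        (block_le m ρ q hρ c cl (Nat.le_of_ble_eq_true g0) (Nat.le_of_ble_eq_true g1)
          (Nat.le_of_ble_eq_true g2) (Nat.le_of_ble_eq_true g3) ce _ ?_) ?_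
      · intro J μ hJ
        exact even_le hβ m hm J hJ _
      · exact Nat.le_of_ble_eq_true ke
    · rw [hy2]
      refine final_arith hβ (6 + m) (by omega) _ (by positivity) c.1 (combc co c.2) _ _ cD'
        (block_le m ρ q hρ c cl (Nat.le_of_ble_eq_true g0) (Nat.le_of_ble_eq_true g1)
          (Nat.le_of_ble_eq_true g2) (Nat.le_of_ble_eq_true g3) co _ ?_) ?_
      · intro J μ hJ
        apply odd_le hβ m hm J hJ _
        have h3 : (y : ℤ) % 2 = 1 := by omega
        rw [hy', hd, mul_assoc] at h3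
        rw [hd, mul_assoc]
        omega
      · exact Nat.le_of_ble_eq_true ko

/-- The certificate for chains of every length. -/
theorem cert7 (l : ℕ) (hl : 1 ≤ l) : CertAt l (7 * β ^ (2 * (l - 1))) := by
  rcases Nat.lt_or_ge l 8 with h | h
  · interval_cases l
    · have h0 := of_full 1 0 1 5 5 3 10 14 7 1 2 2 2 r1 f1 g1 h1 row1 (by norm_num) (by norm_num)
        (by norm_num) (by norm_num) full1 (by norm_num) (by norm_num) (by norm_num) (by norm_num)
        (by norm_num) (by norm_num) (by norm_num) (by norm_num)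
      exact h0.mono (by norm_num)
    · have h0 := of_full 2 0 1 13 13 7 104 135 45 1 4 2 4 r2 f2 g2 h2 row2 (by norm_num)
        (by norm_num) (by norm_num) (by norm_num) full2 (by norm_num) (by norm_num) (by norm_num)
        (by norm_num) (by norm_num) (by norm_num) (by norm_num) (by norm_num)
      have := pow_ge hβ 2 (45 / 7) (by norm_num)
      exact h0.mono (by push_cast; linarith)
    · have h0 := of_full 3 0 1 29 29 15 100000 100000 290 1 8 2 8 r3 f3 g3 h3 row3 (by norm_num)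
        (by norm_num) (by norm_num) (by norm_num) full3 (by norm_num) (by norm_num) (by norm_num)
        (by norm_num) (by norm_num) (by norm_num) (by norm_num) (by norm_num)
      have := pow_ge hβ 4 (290 / 7) (by norm_num)
      exact h0.mono (by push_cast; linarith)
    · have h0 := of_full 4 0 1 61 61 31 1000000 1000000 1873 1 16 2 16 r4 f4 g4 h4 row4
        (by norm_num) (by norm_num) (by norm_num) (by norm_num) full4 (by norm_num) (by norm_num)
        (by norm_num) (by norm_num) (by norm_num) (by norm_num) (by norm_num) (by norm_num)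
      have := pow_ge hβ 6 (1873 / 7) (by norm_num)
      exact h0.mono (by push_cast; linarith)
    · have h0 := of_full 5 0 1 125 125 63 1000000 1000000 12074 1 32 2 32 r5 f5 g5 h5 row5
        (by norm_num) (by norm_num) (by norm_num) (by norm_num) full5 (by norm_num) (by norm_num)
        (by norm_num) (by norm_num) (by norm_num) (by norm_num) (by norm_num) (by norm_num)
      have := pow_ge hβ 8 (12074 / 7) (by norm_num)
      exact h0.mono (by push_cast; linarith)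
    · have h0 := of_full 6 0 1 253 253 127 1000000 1000000 77810 1 64 2 64 r6 f6 g6 h6 row6
        (by norm_num) (by norm_num) (by norm_num) (by norm_num) full6 (by norm_num) (by norm_num)
        (by norm_num) (by norm_num) (by norm_num) (by norm_num) (by norm_num) (by norm_num)
      have := pow_ge hβ 10 (77810 / 7) (by norm_num)
      exact h0.mono (by push_cast; linarith)
    · have h0 := of_full 7 1 1 509 256 256 10000000 10000000 501451 2 64 2 128 r7 fB gB hB row7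
        (by norm_num) (by norm_num) (by norm_num) (by norm_num) full7 (by norm_num) (by norm_num)
        (by norm_num) (by norm_num) (by norm_num) (by norm_num) (by norm_num) (by norm_num)
      have := pow_ge hβ 12 (501451 / 7) (by norm_num)
      exact h0.mono (by push_cast; linarith)
  · obtain ⟨m, rfl⟩ : ∃ m, l = 6 + m := ⟨l - 6, by omega⟩
    exact cert_long hβ m (by omega)

/-- The certificate with the constant `1.0423`. -/
theorem cert (l : ℕ) (hl : 1 ≤ l) :
    ∃ (S : Finset ℤ) (p q : ℤ → ℝ), (∀ w, 0 ≤ p w) ∧ (∀ w, 0 ≤ q w) ∧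
      (∑ w ∈ S, p w) ≤ 1 ∧ (∑ w ∈ S, q w) ≤ 1 ∧
      ∀ t : ℤ, (cnt (pows l) t : ℝ) ^ 2 ≤ (10423 / 10000) ^ 2 * β ^ (2 * l) *
        (∑ w ∈ S.filter (fun w => w ≤ t ∧ t < w + 2 ^ l), p w) *
        (∑ w ∈ S.filter (fun w => w ≤ t ∧ t < w + 2 * 2 ^ l ∧ (2 : ℤ) ∣ (t - w)), q w) := by
  have h := cert7 hβ l hl
  have h1 := root_ge'' hβ
  refine h.mono ?_
  have hx : β ^ (2 * l) = β ^ 2 * β ^ (2 * (l - 1)) := by
    rw [← pow_add]; congr 1; omega
  rw [hx, ← mul_assoc]
  have h4 : (7 : ℝ) ≤ (10423 / 10000) ^ 2 * β ^ 2 := by nlinarith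
  gcongr

/-- The certificate with the constant `√7 / β`. -/
theorem cert_sqrt (l : ℕ) (hl : 1 ≤ l) :
    ∃ (S : Finset ℤ) (p q : ℤ → ℝ), (∀ w, 0 ≤ p w) ∧ (∀ w, 0 ≤ q w) ∧
      (∑ w ∈ S, p w) ≤ 1 ∧ (∑ w ∈ S, q w) ≤ 1 ∧
      ∀ t : ℤ, (cnt (pows l) t : ℝ) ^ 2 ≤ (√7 / β) ^ 2 * β ^ (2 * l) *
        (∑ w ∈ S.filter (fun w => w ≤ t ∧ t < w + 2 ^ l), p w) *
        (∑ w ∈ S.filter (fun w => w ≤ t ∧ t < w + 2 * 2 ^ l ∧ (2 : ℤ) ∣ (t - w)), q w) := by
  have h := cert7 hβ l hl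
  have h1 := root_ge'' hβ
  refine h.mono ?_
  have hx : β ^ (2 * l) = β ^ 2 * β ^ (2 * (l - 1)) := by
    rw [← pow_add]; congr 1; omega
  rw [hx, ← mul_assoc, div_pow, Real.sq_sqrt (by norm_num),
    div_mul_cancel₀ _ (by positivity)]

end

end Pool.Agent.Helper58.CC
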