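import Pool.Agent.Helper58.CC.Rows

/-!
# Multipliers for the 256 top blocks

Entry `q` is `(D, [(J, m, c), …])`: `D` times the block profile of `q` at level six is at most
the sum of `c` times the profiles of `m` at level `J`.
-/

namespace Pool.Agent.Helper58.CC

/-- Multipliers, blocks 0 to 63. -/
def lpt0 : List (ℕ × List (ℕ × ℕ × ℕ)) :=
  [(1, [(0, 0, 1)]), (1, [(0, 0, 1), (0, 1, 1)]), (18, [(0, 0, 16), (0, 1, 5), (4, 28, 1)]),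
   (61, [(0, 0, 57), (0, 1, 56), (3, 13, 5), (4, 28, 2)]),
   (9, [(0, 0, 16), (0, 1, 5), (4, 28, 1)]),
   (61, [(0, 0, 53), (0, 1, 112), (3, 13, 10), (4, 28, 4)]),
   (9, [(0, 0, 5), (0, 1, 1), (4, 28, 2)]),
   (61, [(0, 0, 59), (0, 1, 28), (3, 13, 33), (4, 28, 1)]),
   (18, [(0, 0, 44), (0, 1, 7), (4, 28, 5)]),
   (61, [(0, 0, 116), (0, 1, 145), (3, 13, 38), (4, 28, 3)]),
   (9, [(0, 0, 1), (0, 1, 2), (4, 28, 4)]),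
   (28, [(0, 0, 26), (2, 7, 5), (3, 13, 28), (4, 28, 1)]),
   (2, [(0, 0, 4), (0, 1, 1), (4, 28, 1)]),
   (61, [(0, 0, 53), (0, 1, 112), (3, 13, 71), (4, 28, 4)]), (1, [(2, 6, 4)]),
   (1, [(0, 0, 1), (2, 7, 4)]), (3, [(0, 0, 11), (0, 1, 1), (4, 28, 2)]),
   (61, [(0, 0, 177), (0, 1, 206), (3, 13, 99), (4, 28, 3)]),
   (6, [(0, 1, 1), (2, 6, 16), (4, 28, 3)]),
   (28, [(0, 0, 54), (2, 7, 89), (3, 13, 28), (4, 28, 1)]),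
   (1, [(0, 0, 3), (0, 1, 1), (4, 28, 1)]),
   (61, [(0, 0, 45), (0, 1, 163), (3, 13, 142), (4, 28, 8)]),
   (3, [(0, 2, 1), (2, 6, 16), (4, 26, 1)]), (6, [(0, 0, 5), (2, 7, 26), (4, 27, 3)]),
   (9, [(0, 0, 32), (0, 1, 1), (4, 28, 11)]),
   (61, [(0, 0, 179), (0, 1, 178), (3, 13, 188), (4, 28, 2)]),
   (2, [(0, 1, 1), (2, 6, 12), (4, 26, 1)]),
   (56, [(0, 0, 50), (2, 7, 323), (4, 27, 28), (4, 28, 3)]),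
   (2, [(0, 0, 4), (0, 1, 1), (4, 28, 3)]), (2, [(0, 1, 3), (1, 3, 5), (3, 13, 7)]),
   (1, [(0, 2, 1), (2, 6, 5), (3, 14, 2)]), (6, [(0, 0, 1), (2, 7, 4), (4, 27, 9)]),
   (18, [(0, 0, 104), (0, 1, 1), (4, 28, 29)]),
   (61, [(0, 0, 301), (0, 1, 300), (3, 13, 249), (4, 28, 2)]), (3, [(0, 1, 2), (2, 6, 38)]),
   (14, [(0, 0, 40), (2, 7, 173), (4, 28, 1)]), (9, [(0, 0, 43), (0, 1, 14), (4, 28, 19)]),
   (61, [(0, 0, 35), (0, 1, 242), (3, 13, 307), (4, 28, 13)]),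
   (3, [(0, 2, 5), (2, 6, 32), (4, 26, 2)]), (6, [(0, 0, 7), (2, 7, 34), (4, 27, 9)]),
   (9, [(0, 0, 55), (0, 1, 2), (4, 28, 22)]),
   (61, [(0, 0, 297), (0, 1, 295), (3, 13, 376), (4, 28, 4)]),
   (6, [(0, 1, 5), (2, 6, 50), (4, 26, 9)]),
   (56, [(0, 0, 46), (2, 7, 445), (4, 27, 84), (4, 28, 5)]),
   (9, [(0, 0, 20), (0, 1, 4), (4, 28, 26)]),
   (184, [(0, 1, 148), (3, 13, 820), (5, 53, 83), (5, 58, 3)]),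
   (3, [(0, 3, 1), (2, 6, 4), (3, 14, 21)]), (3, [(0, 3, 5), (2, 7, 5), (4, 27, 8)]),
   (3, [(0, 0, 23), (2, 6, 5), (4, 28, 8)]),
   (61, [(0, 0, 364), (0, 1, 333), (3, 13, 460), (4, 28, 1)]),
   (2, [(0, 1, 1), (2, 6, 24), (4, 26, 3)]),
   (56, [(0, 0, 162), (2, 7, 659), (4, 27, 84), (4, 28, 3)]),
   (2, [(0, 0, 8), (0, 1, 3), (4, 28, 7)]),
   (184, [(0, 1, 420), (3, 13, 1228), (5, 53, 59), (5, 58, 11)]),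
   (3, [(0, 3, 1), (2, 6, 10), (3, 14, 24)]), (1, [(0, 3, 2), (2, 7, 4), (4, 27, 3)]),
   (1, [(0, 0, 7), (2, 6, 4), (4, 28, 3)]), (7, [(0, 0, 34), (0, 1, 25), (3, 13, 66)]),
   (2, [(0, 1, 1), (2, 6, 6), (4, 26, 7)]), (2, [(1, 3, 3), (2, 7, 5), (4, 27, 7)]),
   (1, [(0, 0, 1), (4, 28, 4)]), (4, [(0, 1, 1), (3, 13, 9), (4, 29, 10), (5, 53, 1)]),
   (1, [(0, 2, 1), (0, 3, 2), (3, 14, 10)]), (3, [(0, 3, 13), (2, 7, 10), (4, 27, 10)])]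

/-- Multipliers, blocks 64 to 127. -/
def lpt1 : List (ℕ × List (ℕ × ℕ × ℕ)) :=
  [(3, [(0, 0, 31), (2, 6, 10), (4, 28, 10)]), (1, [(0, 0, 8), (0, 1, 7), (3, 13, 10)]),
   (3, [(0, 1, 2), (2, 6, 47), (4, 26, 6)]),
   (14, [(0, 0, 54), (2, 7, 215), (4, 27, 28), (4, 28, 1)]),
   (18, [(0, 0, 104), (0, 1, 37), (4, 28, 83)]),
   (46, [(0, 1, 159), (3, 13, 457), (5, 53, 11), (5, 58, 4)]), (1, [(2, 6, 6), (3, 14, 10)]),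
   (3, [(0, 3, 4), (2, 7, 10), (4, 27, 13)]), (3, [(0, 0, 28), (2, 6, 10), (4, 28, 13)]),
   (61, [(0, 0, 425), (0, 1, 333), (3, 13, 765), (4, 28, 1)]),
   (6, [(0, 1, 5), (2, 6, 32), (4, 26, 27)]), (2, [(1, 3, 5), (2, 7, 9), (4, 27, 9)]),
   (3, [(0, 0, 4), (2, 6, 1), (4, 28, 16)]),
   (4, [(0, 1, 1), (3, 13, 13), (4, 29, 14), (5, 53, 1)]),
   (7, [(0, 2, 11), (0, 3, 20), (3, 14, 94)]), (3, [(0, 3, 19), (2, 7, 16), (4, 27, 13)]),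
   (3, [(0, 0, 34), (2, 6, 16), (4, 28, 13)]), (7, [(0, 0, 55), (0, 1, 46), (3, 13, 94)]),
   (3, [(0, 1, 1), (2, 6, 34), (4, 26, 12)]),
   (28, [(0, 0, 82), (2, 7, 313), (4, 27, 112), (4, 28, 1)]),
   (9, [(0, 0, 29), (0, 1, 13), (4, 28, 53)]),
   (46, [(0, 1, 34), (3, 13, 120), (5, 53, 89), (5, 58, 1)]),
   (1, [(0, 2, 1), (0, 3, 3), (3, 14, 15)]), (1, [(0, 3, 8), (2, 7, 11), (4, 27, 4)]),
   (1, [(0, 0, 9), (2, 6, 11), (4, 28, 4)]), (1, [(0, 0, 4), (0, 1, 2), (3, 13, 15)]),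
   (1, [(4, 26, 1), (5, 58, 2)]), (1, [(0, 2, 1), (0, 3, 2), (4, 27, 6)]),
   (1, [(0, 3, 2), (2, 6, 6), (4, 28, 5)]), (1, [(2, 7, 6), (4, 29, 5)]),
   (7, [(0, 2, 34), (0, 3, 44), (3, 14, 99)]), (1, [(0, 3, 11), (2, 7, 9), (4, 27, 4)]),
   (1, [(0, 0, 12), (2, 6, 9), (4, 28, 4)]), (7, [(0, 0, 51), (0, 1, 41), (3, 13, 99)]),
   (6, [(0, 1, 1), (2, 6, 58), (4, 26, 27)]),
   (56, [(0, 0, 166), (2, 7, 537), (4, 27, 252), (4, 28, 1)]),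
   (9, [(0, 0, 34), (0, 1, 14), (4, 28, 55)]),
   (184, [(0, 1, 216), (3, 13, 600), (5, 53, 353), (5, 58, 5)]),
   (7, [(0, 2, 2), (0, 3, 17), (3, 14, 110)]), (3, [(0, 3, 20), (2, 7, 26), (4, 27, 14)]),
   (3, [(0, 0, 29), (2, 6, 26), (4, 28, 14)]), (7, [(0, 0, 38), (0, 1, 23), (3, 13, 110)]),
   (1, [(6, 106, 1)]), (18, [(0, 2, 17), (0, 3, 22), (4, 27, 115)]),
   (6, [(0, 3, 11), (2, 6, 32), (4, 28, 33)]), (3, [(0, 1, 1), (2, 7, 19), (4, 29, 16)]),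
   (7, [(0, 2, 34), (0, 3, 44), (3, 14, 106)]), (3, [(0, 3, 34), (2, 7, 28), (4, 27, 13)]),
   (3, [(0, 0, 34), (2, 6, 28), (4, 28, 13)]), (7, [(0, 0, 44), (0, 1, 34), (3, 13, 106)]),
   (3, [(0, 2, 1), (2, 6, 19), (4, 26, 16)]), (6, [(0, 0, 11), (2, 7, 32), (4, 27, 33)]),
   (18, [(0, 0, 22), (0, 1, 17), (4, 28, 115)]), (1, [(6, 117, 1)]),
   (7, [(0, 2, 23), (0, 3, 38), (3, 14, 110)]), (3, [(0, 3, 29), (2, 7, 26), (4, 27, 14)]),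
   (3, [(0, 0, 20), (2, 6, 26), (4, 28, 14)]), (7, [(0, 0, 17), (0, 1, 2), (3, 13, 110)]),
   (184, [(0, 2, 216), (3, 14, 600), (5, 53, 5), (5, 58, 353)]),
   (9, [(0, 2, 14), (0, 3, 34), (4, 27, 55)]),
   (56, [(0, 3, 166), (2, 6, 537), (4, 27, 1), (4, 28, 252)]),
   (6, [(0, 2, 1), (2, 7, 58), (4, 29, 27)]), (7, [(0, 2, 41), (0, 3, 51), (3, 14, 99)]),
   (1, [(0, 3, 12), (2, 7, 9), (4, 27, 4)])]

/-- Multipliers, blocks 128 to 191. -/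
def lpt2 : List (ℕ × List (ℕ × ℕ × ℕ)) :=
  [(1, [(0, 0, 12), (2, 6, 9), (4, 28, 4)]), (7, [(0, 0, 51), (0, 1, 41), (3, 13, 99)]),
   (6, [(0, 1, 1), (2, 6, 58), (4, 26, 27)]),
   (56, [(0, 0, 166), (2, 7, 537), (4, 27, 252), (4, 28, 1)]),
   (9, [(0, 0, 34), (0, 1, 14), (4, 28, 55)]),
   (184, [(0, 1, 216), (3, 13, 600), (5, 53, 353), (5, 58, 5)]),
   (7, [(0, 2, 2), (0, 3, 17), (3, 14, 110)]), (3, [(0, 3, 20), (2, 7, 26), (4, 27, 14)]),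
   (3, [(0, 0, 29), (2, 6, 26), (4, 28, 14)]), (7, [(0, 0, 38), (0, 1, 23), (3, 13, 110)]),
   (1, [(6, 138, 1)]), (18, [(0, 2, 17), (0, 3, 22), (4, 27, 115)]),
   (6, [(0, 3, 11), (2, 6, 32), (4, 28, 33)]), (3, [(0, 1, 1), (2, 7, 19), (4, 29, 16)]),
   (7, [(0, 2, 34), (0, 3, 44), (3, 14, 106)]), (3, [(0, 3, 34), (2, 7, 28), (4, 27, 13)]),
   (3, [(0, 0, 34), (2, 6, 28), (4, 28, 13)]), (7, [(0, 0, 44), (0, 1, 34), (3, 13, 106)]),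
   (3, [(0, 2, 1), (2, 6, 19), (4, 26, 16)]), (6, [(0, 0, 11), (2, 7, 32), (4, 27, 33)]),
   (18, [(0, 0, 22), (0, 1, 17), (4, 28, 115)]), (1, [(6, 149, 1)]),
   (7, [(0, 2, 23), (0, 3, 38), (3, 14, 110)]), (3, [(0, 3, 29), (2, 7, 26), (4, 27, 14)]),
   (3, [(0, 0, 20), (2, 6, 26), (4, 28, 14)]), (7, [(0, 0, 17), (0, 1, 2), (3, 13, 110)]),
   (184, [(0, 2, 216), (3, 14, 600), (5, 53, 5), (5, 58, 353)]),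
   (9, [(0, 2, 14), (0, 3, 34), (4, 27, 55)]),
   (56, [(0, 3, 166), (2, 6, 537), (4, 27, 1), (4, 28, 252)]),
   (6, [(0, 2, 1), (2, 7, 58), (4, 29, 27)]), (7, [(0, 2, 41), (0, 3, 51), (3, 14, 99)]),
   (1, [(0, 3, 12), (2, 7, 9), (4, 27, 4)]), (1, [(0, 0, 11), (2, 6, 9), (4, 28, 4)]),
   (7, [(0, 0, 44), (0, 1, 34), (3, 13, 99)]), (1, [(2, 6, 6), (4, 26, 5)]),
   (1, [(0, 0, 2), (2, 7, 6), (4, 27, 5)]), (1, [(0, 0, 2), (0, 1, 1), (4, 28, 6)]),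
   (1, [(4, 29, 1), (5, 53, 2)]), (1, [(0, 2, 2), (0, 3, 4), (3, 14, 15)]),
   (1, [(0, 3, 9), (2, 7, 11), (4, 27, 4)]), (1, [(0, 0, 8), (2, 6, 11), (4, 28, 4)]),
   (1, [(0, 0, 3), (0, 1, 1), (3, 13, 15)]),
   (46, [(0, 2, 34), (3, 14, 120), (5, 53, 1), (5, 58, 89)]),
   (9, [(0, 2, 13), (0, 3, 29), (4, 27, 53)]),
   (28, [(0, 3, 82), (2, 6, 313), (4, 27, 1), (4, 28, 112)]),
   (3, [(0, 2, 1), (2, 7, 34), (4, 29, 12)]), (7, [(0, 2, 46), (0, 3, 55), (3, 14, 94)]),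
   (3, [(0, 3, 34), (2, 7, 16), (4, 27, 13)]), (3, [(0, 0, 19), (2, 6, 16), (4, 28, 13)]),
   (7, [(0, 0, 20), (0, 1, 11), (3, 13, 94)]),
   (4, [(0, 2, 1), (3, 14, 13), (4, 26, 14), (5, 58, 1)]),
   (3, [(0, 3, 4), (2, 7, 1), (4, 27, 16)]), (2, [(1, 3, 5), (2, 6, 9), (4, 28, 9)]),
   (6, [(0, 2, 5), (2, 7, 32), (4, 29, 27)]),
   (61, [(0, 2, 333), (0, 3, 425), (3, 14, 765), (4, 27, 1)]),
   (3, [(0, 3, 28), (2, 7, 10), (4, 27, 13)]), (3, [(0, 0, 4), (2, 6, 10), (4, 28, 13)]),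
   (1, [(2, 7, 6), (3, 13, 10)]), (46, [(0, 2, 159), (3, 14, 457), (5, 53, 4), (5, 58, 11)]),
   (18, [(0, 2, 37), (0, 3, 104), (4, 27, 83)]),
   (14, [(0, 3, 54), (2, 6, 215), (4, 27, 1), (4, 28, 28)]),
   (3, [(0, 2, 2), (2, 7, 47), (4, 29, 6)]), (1, [(0, 2, 7), (0, 3, 8), (3, 14, 10)]),
   (3, [(0, 3, 31), (2, 7, 10), (4, 27, 10)])]

/-- Multipliers, blocks 192 to 255. -/
def lpt3 : List (ℕ × List (ℕ × ℕ × ℕ)) :=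
  [(3, [(0, 0, 13), (2, 6, 10), (4, 28, 10)]), (1, [(0, 0, 2), (0, 1, 1), (3, 13, 10)]),
   (4, [(0, 2, 1), (3, 14, 9), (4, 26, 10), (5, 58, 1)]), (1, [(0, 3, 1), (4, 27, 4)]),
   (2, [(1, 3, 3), (2, 6, 5), (4, 28, 7)]), (2, [(0, 2, 1), (2, 7, 6), (4, 29, 7)]),
   (7, [(0, 2, 25), (0, 3, 34), (3, 14, 66)]), (1, [(0, 3, 7), (2, 7, 4), (4, 27, 3)]),
   (1, [(0, 0, 2), (2, 6, 4), (4, 28, 3)]), (3, [(0, 0, 1), (2, 7, 10), (3, 13, 24)]),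
   (184, [(0, 2, 420), (3, 14, 1228), (5, 53, 11), (5, 58, 59)]),
   (2, [(0, 2, 3), (0, 3, 8), (4, 27, 7)]),
   (56, [(0, 3, 162), (2, 6, 659), (4, 27, 3), (4, 28, 84)]),
   (2, [(0, 2, 1), (2, 7, 24), (4, 29, 3)]),
   (61, [(0, 2, 333), (0, 3, 364), (3, 14, 460), (4, 27, 1)]),
   (3, [(0, 3, 23), (2, 7, 5), (4, 27, 8)]), (3, [(0, 0, 5), (2, 6, 5), (4, 28, 8)]),
   (3, [(0, 0, 1), (2, 7, 4), (3, 13, 21)]),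
   (184, [(0, 2, 148), (3, 14, 820), (5, 53, 3), (5, 58, 83)]),
   (9, [(0, 2, 4), (0, 3, 20), (4, 27, 26)]),
   (56, [(0, 3, 46), (2, 6, 445), (4, 27, 5), (4, 28, 84)]),
   (6, [(0, 2, 5), (2, 7, 50), (4, 29, 9)]),
   (61, [(0, 2, 295), (0, 3, 297), (3, 14, 376), (4, 27, 4)]),
   (9, [(0, 2, 2), (0, 3, 55), (4, 27, 22)]), (6, [(0, 3, 7), (2, 6, 34), (4, 28, 9)]),
   (3, [(0, 1, 5), (2, 7, 32), (4, 29, 2)]),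
   (61, [(0, 2, 242), (0, 3, 35), (3, 14, 307), (4, 27, 13)]),
   (9, [(0, 2, 14), (0, 3, 43), (4, 27, 19)]), (14, [(0, 3, 40), (2, 6, 173), (4, 27, 1)]),
   (3, [(0, 2, 2), (2, 7, 38)]), (61, [(0, 2, 300), (0, 3, 301), (3, 14, 249), (4, 27, 2)]),
   (18, [(0, 2, 1), (0, 3, 104), (4, 27, 29)]), (6, [(0, 3, 1), (2, 6, 4), (4, 28, 9)]),
   (1, [(0, 1, 1), (2, 7, 5), (3, 13, 2)]), (2, [(0, 2, 3), (1, 3, 5), (3, 14, 7)]),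
   (2, [(0, 2, 1), (0, 3, 4), (4, 27, 3)]),
   (56, [(0, 3, 50), (2, 6, 323), (4, 27, 3), (4, 28, 28)]),
   (2, [(0, 2, 1), (2, 7, 12), (4, 29, 1)]),
   (61, [(0, 2, 178), (0, 3, 179), (3, 14, 188), (4, 27, 2)]),
   (9, [(0, 2, 1), (0, 3, 32), (4, 27, 11)]), (6, [(0, 3, 5), (2, 6, 26), (4, 28, 3)]),
   (3, [(0, 1, 1), (2, 7, 16), (4, 29, 1)]),
   (61, [(0, 2, 163), (0, 3, 45), (3, 14, 142), (4, 27, 8)]),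
   (1, [(0, 2, 1), (0, 3, 3), (4, 27, 1)]),
   (28, [(0, 3, 54), (2, 6, 89), (3, 14, 28), (4, 27, 1)]),
   (6, [(0, 2, 1), (2, 7, 16), (4, 27, 3)]),
   (61, [(0, 2, 206), (0, 3, 177), (3, 14, 99), (4, 27, 3)]),
   (3, [(0, 2, 1), (0, 3, 11), (4, 27, 2)]), (1, [(0, 3, 1), (2, 6, 4)]), (1, [(2, 7, 4)]),
   (61, [(0, 2, 112), (0, 3, 53), (3, 14, 71), (4, 27, 4)]),
   (2, [(0, 2, 1), (0, 3, 4), (4, 27, 1)]),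
   (28, [(0, 3, 26), (2, 6, 5), (3, 14, 28), (4, 27, 1)]),
   (9, [(0, 2, 2), (0, 3, 1), (4, 27, 4)]),
   (61, [(0, 2, 145), (0, 3, 116), (3, 14, 38), (4, 27, 3)]),
   (18, [(0, 2, 7), (0, 3, 44), (4, 27, 5)]),
   (61, [(0, 2, 28), (0, 3, 59), (3, 14, 33), (4, 27, 1)]),
   (9, [(0, 2, 1), (0, 3, 5), (4, 27, 2)]),
   (61, [(0, 2, 112), (0, 3, 53), (3, 14, 10), (4, 27, 4)]),
   (9, [(0, 2, 5), (0, 3, 16), (4, 27, 1)]),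
   (61, [(0, 2, 56), (0, 3, 57), (3, 14, 5), (4, 27, 2)]),
   (18, [(0, 2, 5), (0, 3, 16), (4, 27, 1)]), (1, [(0, 2, 1), (0, 3, 1)]), (1, [(0, 3, 1)])]

end Pool.Agent.Helper58.CC
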