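import Pool.Agent.Helper58.CC.Tab
import Pool.Agent.Helper58.CC.LP

/-!
# The finite checks
-/

namespace Pool.Agent.Helper58.CC

/-- A nondecreasing list. -/
def mono : List ℕ → Bool
  | [] => true
  | x :: l => (match l with
    | [] => true
    | y :: _ => Nat.ble x y) && mono l

/-- Window sum of a cumulative table. -/
def wd (F : List ℕ) (u W : ℕ) : ℕ := nth F (u + 1) - nth F (u + 1 - W)

/-- The check of the certificate inequality at all values `y < N`. -/
def chk (R F G H : List ℕ) (K AB dp Wp dq Wq : ℕ) : ℕ → Bool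
  | 0 => true
  | y + 1 => Nat.ble (nth R y ^ 2 * AB)
      (K * wd F (y / dp) Wp * wd (bif y % 2 == 0 then G else H) (y / dq) Wq) &&
      chk R F G H K AB dp Wp dq Wq y

theorem row0 : row 0 = r0 := by decide +kernel
theorem row1 : row 1 = r1 := by decide +kernel
theorem row2 : row 2 = r2 := by decide +kernel
theorem row3 : row 3 = r3 := by decide +kernel
theorem row4 : row 4 = r4 := by decide +kernel
theorem row5 : row 5 = r5 := by decide +kernel
theorem row6 : row 6 = r6 := by decide +kernel
theorem row7 : row 7 = r7 := by decide +kernel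

/-- All conditions on the tables of a certificate. -/
def full (R F G H : List ℕ) (K A B dp Wp dq Wq N n n' : ℕ) : Bool :=
  mono F && mono G && mono H && (F.length == n + 1) && (G.length == n' + 1) &&
    (H.length == n' + 1) && Nat.ble (nth F n) A && Nat.ble (nth G n' + nth H n') B &&
    chk R F G H K (A * B) dp Wp dq Wq N

theorem full1 : full r1 f1 g1 h1 7 10 14 1 2 2 2 5 5 3 = true := by decide +kernel
theorem full2 : full r2 f2 g2 h2 45 104 135 1 4 2 4 13 13 7 = true := by decide +kernel
theorem full3 : full r3 f3 g3 h3 290 100000 100000 1 8 2 8 29 29 15 = true := by decide +kernel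
theorem full4 : full r4 f4 g4 h4 1873 1000000 1000000 1 16 2 16 61 61 31 = true := by
  decide +kernel
theorem full5 : full r5 f5 g5 h5 12074 1000000 1000000 1 32 2 32 125 125 63 = true := by
  decide +kernel
theorem full6 : full r6 f6 g6 h6 77810 1000000 1000000 1 64 2 64 253 253 127 = true := by
  decide +kernel
theorem full7 : full r7 fB gB hB 501451 10000000 10000000 2 64 2 128 509 256 256 = true := by
  decide +kernel

/-- Rows by index. -/
def rj : ℕ → List ℕ
  | 0 => r0
  | 1 => r1
  | 2 => r2
  | 3 => r3
  | 4 => r4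
  | 5 => r5
  | 6 => r6
  | _ => []

/-- Constants for even values: `10^8` times the bound for `Q`. -/
def ce : ℕ → ℕ
  | 0 => 182740
  | 1 => 463903
  | 2 => 1164901
  | 3 => 2957216
  | 4 => 7494775
  | 5 => 19026235
  | _ => 48300000

/-- Constants for odd values: `10^8` times the bound for `P`. -/
def co : ℕ → ℕ
  | 0 => 117281
  | 1 => 297729
  | 2 => 755813
  | 3 => 1918707
  | 4 => 4870828
  | 5 => 12365084
  | _ => 31390000

/-- Entry `x - k` of a row. -/
def nk (R : List ℕ) (x k : ℕ) : ℕ := bif Nat.ble k x then nth R (x - k) else 0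

/-- The combination of profiles at offset `k`. -/
def comb (k : ℕ) : List (ℕ × ℕ × ℕ) → ℕ
  | [] => 0
  | (J, m, c) :: L => c * nk (rj J) m k + comb k L

/-- The combination of the constants. -/
def combc (cc : ℕ → ℕ) : List (ℕ × ℕ × ℕ) → ℕ
  | [] => 0
  | (J, _, c) :: L => c * cc J + combc cc L

/-- All levels are at most six. -/
def lev : List (ℕ × ℕ × ℕ) → Bool
  | [] => true
  | (J, _, _) :: L => Nat.ble J 6 && lev L

/-- The check of one block. -/
def chkRow (q : ℕ) (c : ℕ × List (ℕ × ℕ × ℕ)) : Bool :=
  Nat.ble 1 c.1 && lev c.2 &&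
  Nat.ble (c.1 * nk r6 q 0) (comb 0 c.2) && Nat.ble (c.1 * nk r6 q 1) (comb 1 c.2) &&
  Nat.ble (c.1 * nk r6 q 2) (comb 2 c.2) && Nat.ble (c.1 * nk r6 q 3) (comb 3 c.2) &&
  Nat.ble (combc ce c.2 ^ 2 * (100000000000000 * 100000))
    (108618 * (10000000000000000 * c.1 ^ 2) * wd fB q 64 * wd gB q 128) &&
  Nat.ble (combc co c.2 ^ 2 * (100000000000000 * 100000))
    (108618 * (10000000000000000 * c.1 ^ 2) * wd fB q 64 * wd hB q 128)

/-- The check of consecutive blocks. -/
def chkAll : ℕ → List (ℕ × List (ℕ × ℕ × ℕ)) → Bool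
  | _, [] => true
  | q, c :: L => chkRow q c && chkAll (q + 1) L

theorem blk0 : chkAll 0 lpt0 = true := by decide +kernel
theorem blk1 : chkAll 64 lpt1 = true := by decide +kernel
theorem blk2 : chkAll 128 lpt2 = true := by decide +kernel
theorem blk3 : chkAll 192 lpt3 = true := by decide +kernel
theorem len0 : lpt0.length = 64 := by decide +kernel
theorem len1 : lpt1.length = 64 := by decide +kernel
theorem len2 : lpt2.length = 64 := by decide +kernel
theorem len3 : lpt3.length = 64 := by decide +kernel

end Pool.Agent.Helper58.CC
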