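import Pool.Agent.Helper54.Chain.Block

/-!
# Five-digit counts for powers of two: recursions, block splitting, tables

`T l y` is the number of `x ∈ {0, …, 4}^l` with `∑ 2^i x_i = y`.
-/

namespace Pool.Agent.Helper58.CC

open Pool.Agent.Helper23.Hyper

/-- The number of digit vectors in `{0, …, 4}^l` with value `y`. -/
def T (l : ℕ) (y : ℤ) : ℕ := cnt (pows l) (y - 2 * (2 ^ l - 1))

theorem T_zero (y : ℤ) : T 0 y = if y = 0 then 1 else 0 := by
  unfold T
  simp [pows, cnt]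

theorem T_even (l : ℕ) (z : ℤ) : T (l + 1) (2 * z) = T l z + T l (z - 1) + T l (z - 2) := by
  unfold T
  have e : (2 : ℤ) * z - 2 * (2 ^ (l + 1) - 1) = 2 * (z - 2 * (2 ^ l - 1) - 1) := by ring
  rw [e, pows_even,
    show z - 2 * (2 ^ l - 1) - 1 + 1 = z - 2 * (2 ^ l - 1) by ring,
    show z - 2 * (2 ^ l - 1) - 1 = z - 1 - 2 * (2 ^ l - 1) by ring,
    show z - 1 - 2 * (2 ^ l - 1) - 1 = z - 2 - 2 * (2 ^ l - 1) by ring]

theorem T_odd (l : ℕ) (z : ℤ) : T (l + 1) (2 * z + 1) = T l z + T l (z - 1) := by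
  unfold T
  have e : (2 : ℤ) * z + 1 - 2 * (2 ^ (l + 1) - 1) = 2 * (z - 2 * (2 ^ l - 1) - 1) + 1 := by ring
  rw [e, pows_odd]
  congr 2
  · ring
  · ring

/-- Removing the top digit. -/
theorem T_top (l : ℕ) : ∀ y : ℤ, T (l + 1) y = T l y + T l (y - 2 ^ l) + T l (y - 2 * 2 ^ l) +
    T l (y - 3 * 2 ^ l) + T l (y - 4 * 2 ^ l) := by
  induction l with
  | zero =>
    intro y
    obtain ⟨z, hz | hz⟩ := Int.even_or_odd' y
    · rw [hz, T_even]
      simp only [T_zero, pow_zero]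
      split_ifs <;> omega
    · rw [hz, T_odd]
      simp only [T_zero, pow_zero]
      split_ifs <;> omega
  | succ l ih =>
    intro y
    obtain ⟨z, hz | hz⟩ := Int.even_or_odd' y
    · have e : ∀ k : ℤ, T (l + 1) (2 * z - k * 2 ^ (l + 1)) =
          T l (z - k * 2 ^ l) + T l (z - k * 2 ^ l - 1) + T l (z - k * 2 ^ l - 2) := by
        intro k
        rw [show 2 * z - k * 2 ^ (l + 1) = 2 * (z - k * 2 ^ l) by ring, T_even]
      have e0 := e 0
      have e1 := e 1
      have e2 := e 2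
      have e3 := e 3
      have e4 := e 4
      rw [zero_mul, sub_zero, zero_mul, sub_zero] at e0
      rw [one_mul, one_mul] at e1
      rw [hz, T_even, e0, e1, e2, e3, e4, ih z, ih (z - 1), ih (z - 2)]
      rw [show z - 1 - 2 ^ l = z - 2 ^ l - 1 by ring,
        show z - 1 - 2 * 2 ^ l = z - 2 * 2 ^ l - 1 by ring,
        show z - 1 - 3 * 2 ^ l = z - 3 * 2 ^ l - 1 by ring,
        show z - 1 - 4 * 2 ^ l = z - 4 * 2 ^ l - 1 by ring,
        show z - 2 - 2 ^ l = z - 2 ^ l - 2 by ring,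
        show z - 2 - 2 * 2 ^ l = z - 2 * 2 ^ l - 2 by ring,
        show z - 2 - 3 * 2 ^ l = z - 3 * 2 ^ l - 2 by ring,
        show z - 2 - 4 * 2 ^ l = z - 4 * 2 ^ l - 2 by ring]
      ring
    · have e : ∀ k : ℤ, T (l + 1) (2 * z + 1 - k * 2 ^ (l + 1)) =
          T l (z - k * 2 ^ l) + T l (z - k * 2 ^ l - 1) := by
        intro k
        rw [show 2 * z + 1 - k * 2 ^ (l + 1) = 2 * (z - k * 2 ^ l) + 1 by ring, T_odd]
      have e0 := e 0
      have e1 := e 1
      have e2 := e 2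
      have e3 := e 3
      have e4 := e 4
      rw [zero_mul, sub_zero, zero_mul, sub_zero] at e0
      rw [one_mul, one_mul] at e1
      rw [hz, T_odd, e0, e1, e2, e3, e4, ih z, ih (z - 1)]
      rw [show z - 1 - 2 ^ l = z - 2 ^ l - 1 by ring,
        show z - 1 - 2 * 2 ^ l = z - 2 * 2 ^ l - 1 by ring,
        show z - 1 - 3 * 2 ^ l = z - 3 * 2 ^ l - 1 by ring,
        show z - 1 - 4 * 2 ^ l = z - 4 * 2 ^ l - 1 by ring]
      ring

theorem T_neg (l : ℕ) : ∀ y : ℤ, y < 0 → T l y = 0 := by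
  induction l with
  | zero => intro y hy; rw [T_zero, if_neg (by omega)]
  | succ l ih =>
    intro y hy
    obtain ⟨z, hz | hz⟩ := Int.even_or_odd' y
    · rw [hz, T_even, ih z (by omega), ih (z - 1) (by omega), ih (z - 2) (by omega)]
    · rw [hz, T_odd, ih z (by omega), ih (z - 1) (by omega)]

theorem T_big (l : ℕ) : ∀ y : ℤ, 4 * (2 ^ l - 1) < y → T l y = 0 := by
  induction l with
  | zero =>
    intro y hy
    rw [pow_zero] at hy
    rw [T_zero, if_neg (by omega)]
  | succ l ih =>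
    intro y hy
    rw [pow_succ] at hy
    obtain ⟨z, hz | hz⟩ := Int.even_or_odd' y
    · rw [hz, T_even, ih z (by omega), ih (z - 1) (by omega), ih (z - 2) (by omega)]
    · rw [hz, T_odd, ih z (by omega), ih (z - 1) (by omega)]

/-- Splitting into the top `j` and the bottom `m` digits. -/
theorem T_split (m : ℕ) (ρ : ℤ) (h0 : 0 ≤ ρ) (h1 : ρ < 2 ^ m) (j : ℕ) : ∀ q : ℤ,
    T (j + m) (2 ^ m * q + ρ) = T j q * T m ρ + T j (q - 1) * T m (ρ + 2 ^ m) +
      T j (q - 2) * T m (ρ + 2 * 2 ^ m) + T j (q - 3) * T m (ρ + 3 * 2 ^ m) := by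
  induction j with
  | zero =>
    intro q
    rw [zero_add]
    have hpos : (0 : ℤ) < 2 ^ m := by positivity
    simp only [T_zero]
    by_cases hq : q < 0
    · rw [if_neg (by omega), if_neg (by omega), if_neg (by omega), if_neg (by omega), T_neg]
      · ring
      · have : 2 ^ m * q ≤ 2 ^ m * (-1) := mul_le_mul_of_nonneg_left (by omega) hpos.le
        linarith
    by_cases hq4 : 4 ≤ q
    · rw [if_neg (by omega), if_neg (by omega), if_neg (by omega), if_neg (by omega), T_big]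
      · ring
      · have : 2 ^ m * 4 ≤ 2 ^ m * q := mul_le_mul_of_nonneg_left hq4 hpos.le
        linarith
    have : q = 0 ∨ q = 1 ∨ q = 2 ∨ q = 3 := by omega
    rcases this with rfl | rfl | rfl | rfl
    · rw [if_pos (by norm_num), if_neg (by norm_num), if_neg (by norm_num), if_neg (by norm_num)]
      rw [show 2 ^ m * 0 + ρ = ρ by ring]
      ring
    · rw [if_neg (by norm_num), if_pos (by norm_num), if_neg (by norm_num), if_neg (by norm_num)]
      rw [show 2 ^ m * 1 + ρ = ρ + 2 ^ m by ring]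
      ring
    · rw [if_neg (by norm_num), if_neg (by norm_num), if_pos (by norm_num), if_neg (by norm_num)]
      rw [show 2 ^ m * 2 + ρ = ρ + 2 * 2 ^ m by ring]
      ring
    · rw [if_neg (by norm_num), if_neg (by norm_num), if_neg (by norm_num), if_pos (by norm_num)]
      rw [show 2 ^ m * 3 + ρ = ρ + 3 * 2 ^ m by ring]
      ring
  | succ j ih =>
    intro q
    have e : ∀ k : ℤ, 2 ^ m * q + ρ - k * 2 ^ (j + m) = 2 ^ m * (q - k * 2 ^ j) + ρ := by
      intro k
      rw [pow_add]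
      ring
    have e1 := e 1
    rw [one_mul, one_mul] at e1
    rw [show j + 1 + m = (j + m) + 1 by ring, T_top (j + m), e1, e 2, e 3, e 4,
      ih q, ih (q - 2 ^ j), ih (q - 2 * 2 ^ j), ih (q - 3 * 2 ^ j), ih (q - 4 * 2 ^ j),
      T_top j q, T_top j (q - 1), T_top j (q - 2), T_top j (q - 3)]
    rw [show q - 1 - 2 ^ j = q - 2 ^ j - 1 by ring,
        show q - 1 - 2 * 2 ^ j = q - 2 * 2 ^ j - 1 by ring,
        show q - 1 - 3 * 2 ^ j = q - 3 * 2 ^ j - 1 by ring,
        show q - 1 - 4 * 2 ^ j = q - 4 * 2 ^ j - 1 by ring,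
        show q - 2 - 2 ^ j = q - 2 ^ j - 2 by ring,
        show q - 2 - 2 * 2 ^ j = q - 2 * 2 ^ j - 2 by ring,
        show q - 2 - 3 * 2 ^ j = q - 3 * 2 ^ j - 2 by ring,
        show q - 2 - 4 * 2 ^ j = q - 4 * 2 ^ j - 2 by ring,
        show q - 3 - 2 ^ j = q - 2 ^ j - 3 by ring,
        show q - 3 - 2 * 2 ^ j = q - 2 * 2 ^ j - 3 by ring,
        show q - 3 - 3 * 2 ^ j = q - 3 * 2 ^ j - 3 by ring,
        show q - 3 - 4 * 2 ^ j = q - 4 * 2 ^ j - 3 by ring]
    ring

theorem T_le_Q (l : ℕ) (hl : 1 ≤ l) (y : ℤ) : T l y ≤ Q l := by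
  obtain ⟨k, rfl⟩ : ∃ k, l = k + 1 := ⟨l - 1, by omega⟩
  exact (Pool.Agent.Helper54.Chain.good_pows k).all _

theorem T_le_P (l : ℕ) (hl : 1 ≤ l) (y : ℤ) (hy : y % 2 = 1) : T l y ≤ P l := by
  obtain ⟨k, rfl⟩ : ∃ k, l = k + 1 := ⟨l - 1, by omega⟩
  apply (Pool.Agent.Helper54.Chain.good_pows k).odd
  omega

/-! ### Tables -/

/-- Entry `i` of a list, `0` beyond the end. -/
def nth : List ℕ → ℕ → ℕ
  | [], _ => 0
  | x :: _, 0 => x
  | _ :: xs, i + 1 => nth xs i

/-- The next row. -/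
def stp : ℕ → ℕ → List ℕ → List ℕ
  | p2, p1, [] => [p1 + p2, p1, p1]
  | p2, p1, x :: xs => (x + p1 + p2) :: (x + p1) :: stp p1 x xs

/-- The row of all counts for `l` digits. -/
def row : ℕ → List ℕ
  | 0 => [1]
  | l + 1 => stp 0 0 (row l)

theorem nth_stp (L : List ℕ) : ∀ (p2 p1 z : ℕ),
    nth (stp p2 p1 L) (2 * z) = nth (p2 :: p1 :: L) (z + 2) + nth (p2 :: p1 :: L) (z + 1) +
      nth (p2 :: p1 :: L) z ∧
    nth (stp p2 p1 L) (2 * z + 1) = nth (p2 :: p1 :: L) (z + 2) + nth (p2 :: p1 :: L) (z + 1) := by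
  induction L with
  | nil =>
    intro p2 p1 z
    rcases z with _ | _ | z
    · constructor <;> simp [stp, nth]
    · constructor <;> simp [stp, nth]
    · constructor
      · rw [show 2 * (z + 1 + 1) = (2 * z + 1) + 1 + 1 + 1 by ring]
        simp [stp, nth]
      · rw [show 2 * (z + 1 + 1) + 1 = (2 * z + 1 + 1) + 1 + 1 + 1 by ring]
        simp [stp, nth]
  | cons x xs ih =>
    intro p2 p1 z
    rcases z with _ | z
    · constructor <;> simp [stp, nth]
    · obtain ⟨h1, h2⟩ := ih p1 x z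
      constructor
      · rw [show 2 * (z + 1) = 2 * z + 1 + 1 by ring]
        simpa [stp, nth] using h1
      · rw [show 2 * (z + 1) + 1 = 2 * z + 1 + 1 + 1 by ring]
        simpa [stp, nth] using h2

theorem nth_row_even (l z : ℕ) : nth (row (l + 1)) (2 * (z + 2)) =
    nth (row l) (z + 2) + nth (row l) (z + 1) + nth (row l) z := by
  have := (nth_stp (row l) 0 0 (z + 2)).1
  simpa [row, nth] using this

theorem T_eq_nth (l : ℕ) : ∀ y : ℕ, T l (y : ℤ) = nth (row l) y := by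
  induction l with
  | zero =>
    intro y
    rw [T_zero]
    rcases y with _ | y
    · simp [row, nth]
    · rw [if_neg (by omega)]
      simp [row, nth]
  | succ l ih =>
    intro y
    rcases Nat.even_or_odd' y with ⟨z, hz | hz⟩
    · have h1 := (nth_stp (row l) 0 0 z).1
      rw [hz]
      show T (l + 1) ((2 * z : ℕ) : ℤ) = nth (stp 0 0 (row l)) (2 * z)
      rw [h1]
      push_cast
      rw [T_even]
      rcases z with _ | _ | z
      · have e1 : T l (((0 : ℕ) : ℤ) - 1) = 0 := T_neg l _ (by norm_num)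
        have e2 : T l (((0 : ℕ) : ℤ) - 2) = 0 := T_neg l _ (by norm_num)
        rw [e1, e2, ih 0]
        simp [nth]
      · have e2 : T l (((0 + 1 : ℕ) : ℤ) - 2) = 0 := T_neg l _ (by norm_num)
        have e1 : T l (((0 + 1 : ℕ) : ℤ) - 1) = T l ((0 : ℕ) : ℤ) := by norm_num
        rw [e2, e1, ih 0, ih (0 + 1)]
        simp [nth]
      · have a2 := ih (z + 2)
        have a1 := ih (z + 1)
        have a0 := ih z
        rw [show ((z + 1 + 1 : ℕ) : ℤ) = ((z + 2 : ℕ) : ℤ) by push_cast; ring, a2,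
          show ((z + 2 : ℕ) : ℤ) - 1 = ((z + 1 : ℕ) : ℤ) by push_cast; ring, a1,
          show ((z + 2 : ℕ) : ℤ) - 2 = ((z : ℕ) : ℤ) by push_cast; ring, a0]
        simp [nth]
    · have h1 := (nth_stp (row l) 0 0 z).2
      rw [hz]
      show T (l + 1) ((2 * z + 1 : ℕ) : ℤ) = nth (stp 0 0 (row l)) (2 * z + 1)
      rw [h1]
      push_cast
      rw [T_odd]
      rcases z with _ | z
      · have e1 : T l (((0 : ℕ) : ℤ) - 1) = 0 := T_neg l _ (by norm_num)
        rw [e1, ih 0]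
        simp [nth]
      · have a1 := ih (z + 1)
        have a0 := ih z
        rw [a1, show ((z + 1 : ℕ) : ℤ) - 1 = ((z : ℕ) : ℤ) by push_cast; ring, a0]
        simp [nth]

end Pool.Agent.Helper58.CC
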